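import Mathlib
import Pool.Agent.Lib.MP_8f66f0_al_FH.KAll
import Pool.Agent.Lib.MP_8f66f0_al_Tree.SpecD

/-! Project ZERO, architecture, part 1: the abstract geometry (spaces with lines, families of bump
functions) and the statements `S_F`, `S_F0`, `S_E` about it. -/

set_option autoImplicit false

namespace Pool.Agent.ZA

open Pool.Agent.Wald Pool.Agent.WaldL Pool.Agent.Ind Pool.Agent.FH MeasureTheory
open scoped Pointwise

section Space

/-- Pairs of points with distance one: the unit tangent vectors of a space with lines. -/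
def SY (Y : Type) [MetricSpace Y] : Type := {c : Y × Y // dist c.1 c.2 = 1}

noncomputable instance (Y : Type) [MetricSpace Y] : MetricSpace (SY Y) :=
  inferInstanceAs (MetricSpace {c : Y × Y // dist c.1 c.2 = 1})

/-- A group acts properly by isometries on a proper metric space with lines: any two points `x`,
`y` are on the line `t ↦ ln x y t` with `ln x y 0 = x`, `ln x y 1 = y` (constant if `x = y`). The
distance function is convex, the geodesic flow is uniformly Lipschitz for bounded times, the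
Hausdorff dimension is finite, there is a chart in which the lines through the base point are straight, and
the group has a torsion free normal subgroup of finite index. -/
structure Geo (G Y : Type) [Group G] [MetricSpace Y] [MulAction G Y] where
  ln : Y → Y → ℝ → Y
  ln0 : ∀ x y : Y, ln x y 0 = x
  ln1 : ∀ x y : Y, ln x y 1 = y
  lnln : ∀ (x y : Y) (s t r : ℝ), ln (ln x y s) (ln x y t) r = ln x y (s + r * (t - s))
  dln : ∀ (x y : Y) (s t : ℝ), dist (ln x y s) (ln x y t) = |s - t| * dist x y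
  cvx : ∀ (x y x' y' : Y) (s : ℝ), 0 ≤ s → s ≤ 1 →
    dist (ln x y s) (ln x' y' s) ≤ (1 - s) * dist x x' + s * dist y y'
  gdist : ∀ (g : G) (x y : Y), dist (g • x) (g • y) = dist x y
  gln : ∀ (g : G) (x y : Y) (t : ℝ), g • ln x y t = ln (g • x) (g • y) t
  cpt : ∀ (x : Y) (r : ℝ), IsCompact (Metric.closedBall x r)
  act : ∀ K : Set Y, IsCompact K → {g : G | ((g • K) ∩ K).Nonempty}.Finite
  /-- a torsion free normal subgroup of finite index -/
  G' : Subgroup G
  nrm : G'.Normal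
  fin : G'.FiniteIndex
  tf : ∀ g ∈ G', ∀ n : ℕ, 0 < n → g ^ n = 1 → g = 1
  /-- finite dimension -/
  dim : ∃ D : ℕ, dimH (Set.univ : Set (Y × Y)) ≤ D
  /-- the flow is uniformly Lipschitz at small scales -/
  lip : ∀ T : ℝ, 0 < T → ∃ C δ : ℝ, 0 < C ∧ 0 < δ ∧ ∀ x y x' y' : Y, dist x y = 1 →
    dist x' y' = 1 → dist x x' ≤ δ → dist y y' ≤ δ → ∀ t : ℝ, |t| ≤ T →
      dist (ln x y t) (ln x' y' t) ≤ C * max (dist x x') (dist y y')
  /-- the chart -/
  D : ℕ
  x₀ : Y
  chart : Y ≃ₜ (Fin D → ℝ)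
  chart_ln : ∀ (z : Y) (s : ℝ), chart (ln x₀ z s) = s • chart z

variable {G Y : Type} [Group G] [MetricSpace Y] [MulAction G Y]

/-- The geodesic flow. -/
noncomputable def Geo.fl (Γ : Geo G Y) (t : ℝ) (c : SY Y) : SY Y :=
  ⟨(Γ.ln c.1.1 c.1.2 t, Γ.ln c.1.1 c.1.2 (t + 1)), by
    rw [Γ.dln, c.2]
    norm_num⟩

/-- The action of the group on the unit tangent vectors. -/
def Geo.gs (Γ : Geo G Y) (g : G) (c : SY Y) : SY Y :=
  ⟨(g • c.1.1, g • c.1.2), by rw [Γ.gdist, c.2]⟩

end Space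

section Families

/-- A family of functions with values in `[0, 1]` on a set `M` on which `G` acts (by `a`), indexed
by a `G`-set; at every point at most `n` of them are not zero, and the (setwise) stabilizer of
every non-empty set of indices of functions which are not zero at a point is in `Sm`. -/
structure Fam (G M : Type) [Group G] (a : G → M → M) (Sm : Subgroup G → Prop) (n : ℕ) where
  J : Type
  [act : MulAction G J]
  u : J → M → ℝ
  nonneg : ∀ j x, 0 ≤ u j x
  le_one : ∀ j x, u j x ≤ 1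
  inv : ∀ (g : G) j x, u (g • j) (a g x) = u j x
  fin : ∀ x, {j | u j x ≠ 0}.Finite
  card : ∀ x, {j | u j x ≠ 0}.ncard ≤ n
  small : ∀ (x : M) (A : Set J), A.Nonempty → (∀ j ∈ A, u j x ≠ 0) → ∀ V : Subgroup G,
    (∀ g ∈ V, g • A = A) → Sm V

/-- The family is equicontinuous, uniformly. -/
def Fam.UC {G M : Type} [Group G] [MetricSpace M] {a : G → M → M} {Sm : Subgroup G → Prop}
    {n : ℕ} (U : Fam G M a Sm n) : Prop :=
  ∀ ε : ℝ, 0 < ε → ∃ δ : ℝ, 0 < δ ∧ ∀ x y : M, dist x y ≤ δ → ∀ j, |U.u j x - U.u j y| ≤ ε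

/-- Lipschitz families. -/
def Fam.Lip {G M : Type} [Group G] [MetricSpace M] {a : G → M → M} {Sm : Subgroup G → Prop}
    {n : ℕ} (U : Fam G M a Sm n) (ε : ℝ) : Prop :=
  ∀ x y : M, ∀ j, |U.u j x - U.u j y| ≤ ε * dist x y

/-- Invariant closed subsets with a compact quotient. -/
def CoCpt (G : Type) {Y : Type} [Group G] [MetricSpace Y] [MulAction G Y] (Z : Set Y) : Prop :=
  IsClosed Z ∧ (∀ (g : G), ∀ x ∈ Z, g • x ∈ Z) ∧
    ∃ K : Set Y, IsCompact K ∧ ∀ x ∈ Z, ∃ g : G, g • x ∈ K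

variable {G Y : Type} [Group G] [MetricSpace Y] [MulAction G Y]

/-- The periodic families: the elements of `V` commute with powers of an element `δ` which
translates a line. -/
def SmP (Γ : Geo G Y) (V : Subgroup G) : Prop :=
  ∃ (δ : G) (c : SY Y) (τ : ℝ), 0 < τ ∧ Γ.gs δ c = Γ.fl τ c ∧
    ∀ g ∈ V, ∃ a : ℕ, 0 < a ∧ g * δ ^ a = δ ^ a * g

end Families

section Statements

/-- Part F: long thin families on the cocompact part. The number `n` depends neither on the
cocompact part nor on the length `α`. -/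
def S_F : Prop :=
  ∀ (G Y : Type) [Group G] [MetricSpace Y] [MulAction G Y] (Γ : Geo G Y), ∃ n : ℕ,
    ∀ Z : Set Y, CoCpt G Z → ∀ α : ℝ, 0 < α →
      ∃ U : Fam G (SY Y) Γ.gs (fun V => Finite V ∨ SmP Γ V) n, U.UC ∧
        (∀ j c t, |U.u j (Γ.fl t c) - U.u j c| ≤ |t| / α) ∧
        ∀ c : SY Y, c.1.1 ∈ Z → ∃ j, U.u j c = 1

/-- Part F, the static version (easy). -/
def S_F0 : Prop :=
  ∀ (G Y : Type) [Group G] [MetricSpace Y] [MulAction G Y], Geo G Y →
    ∀ Z : Set Y, CoCpt G Z → ∃ (n : ℕ) (U : Fam G Y (fun g x => g • x) (fun V => Finite V) n),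
      U.UC ∧ ∀ x ∈ Z, ∃ j, U.u j x = 1

/-- Part E: gluing, with the transfer (T1) and the control theorem (T2). -/
def S_E : Prop :=
  ∀ (G Y : Type) [Group G] [MetricSpace Y] [MulAction G Y] (Γ : Geo G Y)
    (Sm : Subgroup G → Prop) (n : ℕ),
    (∃ U : Fam G Y (fun g x => g • x) Sm n, U.UC ∧ ∀ x, ∃ j, U.u j x = 1) →
    (∀ α : ℝ, 0 < α → ∃ U : Fam G (SY Y) Γ.gs Sm n, U.UC ∧
      (∀ j c t, |U.u j (Γ.fl t c) - U.u j c| ≤ |t| / α) ∧ ∀ c, ∃ j, U.u j c = 1) →
    ∀ (H : Type) [Group H] (ρ : H →* G), (∀ V : Subgroup H, Sm (V.map ρ) → KK V) → KK H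

end Statements

end Pool.Agent.ZA
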