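import Mathlib
import Pool.Agent.Lib.MP_8f66f0_al_ZA.Defs

/-! Project ZERO, architecture, part 2: orders, positive involutions, and the statements `S_X`,
`S_R`, `S_I`, `S_SS`, `S_ZERO`. -/

set_option autoImplicit false

namespace Pool.Agent.ZA

open Pool.Agent.Wald Pool.Agent.WaldL Pool.Agent.Ind Pool.Agent.FH Pool.Agent.Hier
open Pool.Agent.TreeC MeasureTheory
open scoped Pointwise TensorProduct

section Ord

variable (O : Type) [Ring O]

/-- The real algebra `ℝ ⊗ O`. -/
abbrev VO : Type := ℝ ⊗[ℤ] O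

/-- The extension of a ring automorphism. -/
noncomputable def ext (g : RingAut O) : VO O ≃ₐ[ℝ] VO O :=
  Algebra.TensorProduct.congr AlgEquiv.refl (RingEquiv.toIntAlgEquiv g)

theorem ext_tmul (g : RingAut O) (r : ℝ) (x : O) : ext O g (r ⊗ₜ[ℤ] x) = r ⊗ₜ[ℤ] (g x) := rfl

theorem ext_one : ext O 1 = AlgEquiv.refl := by
  apply AlgEquiv.coe_toAlgHom_injective
  apply Algebra.TensorProduct.ext'
  intro r x
  rfl

theorem ext_mul (g h : RingAut O) (x : VO O) : ext O (g * h) x = ext O g (ext O h x) := by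
  have : (ext O (g * h)).toAlgHom = ((ext O g).toAlgHom.comp (ext O h).toAlgHom) := by
    apply Algebra.TensorProduct.ext'
    intro r x
    rfl
  exact DFunLike.congr_fun this x

/-- The regular trace: the trace of the left multiplication. -/
noncomputable def tr : VO O →ₗ[ℝ] ℝ := LinearMap.trace ℝ (VO O) ∘ₗ LinearMap.mul ℝ (VO O)

/-- Positive involutions of `ℝ ⊗ O` (real linear, reversing products). -/
structure PI where
  s : VO O →ₗ[ℝ] VO O
  mul : ∀ x y, s (x * y) = s y * s x
  inv : ∀ x, s (s x) = x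
  sym : ∀ x y, tr O (s x * y) = tr O (s y * x)
  pos : ∀ x, x ≠ 0 → 0 < tr O (s x * x)

variable {O}

/-- The scalar product of a positive involution. -/
noncomputable def PI.q (σ : PI O) (x y : VO O) : ℝ := tr O (σ.s x * y)

@[ext] theorem PI.ext' {σ τ : PI O} (h : ∀ x, σ.s x = τ.s x) : σ = τ := by
  cases σ
  cases τ
  have := LinearMap.ext h
  subst this
  rfl

theorem trace_ext (g : RingAut O) (x : VO O) :
    tr O (ext O g x) = tr O x := by
  have h : LinearMap.mul ℝ (VO O) (ext O g x) =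
      (ext O g).toLinearEquiv.conj (LinearMap.mul ℝ (VO O) x) := by
    apply LinearMap.ext
    intro y
    rw [LinearEquiv.conj_apply_apply]
    change ext O g x * y = ext O g (x * (ext O g).symm y)
    rw [map_mul, AlgEquiv.apply_symm_apply]
  change LinearMap.trace ℝ (VO O) (LinearMap.mul ℝ (VO O) (ext O g x)) = _
  rw [h, LinearMap.trace_conj']
  rfl

theorem ext_inv_cancel (g : RingAut O) (x : VO O) : ext O g (ext O g⁻¹ x) = x := by
  rw [← ext_mul, mul_inv_cancel, ext_one]
  rfl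

theorem ext_cancel_inv (g : RingAut O) (x : VO O) : ext O g⁻¹ (ext O g x) = x := by
  rw [← ext_mul, inv_mul_cancel, ext_one]
  rfl

/-- The action of the automorphisms on the positive involutions: `g • σ = g σ g⁻¹`. -/
noncomputable instance : MulAction (RingAut O) (PI O) where
  smul g σ :=
    { s := (ext O g).toLinearMap ∘ₗ σ.s ∘ₗ (ext O g⁻¹).toLinearMap
      mul := by
        intro x y
        change ext O g (σ.s (ext O g⁻¹ (x * y))) = _ * _
        rw [map_mul, σ.mul, map_mul]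
        rfl
      inv := by
        intro x
        change ext O g (σ.s (ext O g⁻¹ (ext O g (σ.s (ext O g⁻¹ x))))) = x
        rw [ext_cancel_inv, σ.inv, ext_inv_cancel]
      sym := by
        have h : ∀ x y, tr O (ext O g (σ.s (ext O g⁻¹ x)) * y) =
            tr O (σ.s (ext O g⁻¹ x) * ext O g⁻¹ y) := by
          intro x y
          rw [← trace_ext g⁻¹, map_mul, ext_cancel_inv]
        intro x y
        exact (h x y).trans ((σ.sym _ _).trans (h y x).symm)
      pos := by
        intro x hx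
        have h : tr O (ext O g (σ.s (ext O g⁻¹ x)) * x) =
            tr O (σ.s (ext O g⁻¹ x) * ext O g⁻¹ x) := by
          rw [← trace_ext g⁻¹, map_mul, ext_cancel_inv]
        change 0 < tr O (ext O g (σ.s (ext O g⁻¹ x)) * x)
        rw [h]
        refine σ.pos _ fun h0 => hx ?_
        rw [← ext_inv_cancel g x, h0, map_zero] }
  one_smul σ := by
    apply PI.ext'
    intro x
    change ext O 1 (σ.s (ext O 1⁻¹ x)) = σ.s x
    rw [inv_one, ext_one]
    rfl
  mul_smul g h σ := by
    apply PI.ext'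
    intro x
    change ext O (g * h) (σ.s (ext O (g * h)⁻¹ x)) =
      ext O g (ext O h (σ.s (ext O h⁻¹ (ext O g⁻¹ x))))
    rw [mul_inv_rev, ext_mul, ext_mul]

theorem PI.smul_s (g : RingAut O) (σ : PI O) (x : VO O) :
    (g • σ).s x = ext O g (σ.s (ext O g⁻¹ x)) := rfl

variable (O)

/-- The distance of the metric space is the Thompson distance. -/
def IsTh [MetricSpace (PI O)] : Prop :=
  ∀ (σ τ : PI O) (r : ℝ), 0 ≤ r → (dist σ τ ≤ r ↔
    ∀ x, τ.q x x ≤ Real.exp r * σ.q x x ∧ σ.q x x ≤ Real.exp r * τ.q x x)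

variable {O}

/-- Second family: the elements of `V` commute with an automorphism `δ ≠ 1` which is normal for
the scalar product of a positive involution `σ` (the adjoint of `δ⁻¹` is `σ δ σ`). -/
def SmD (V : Subgroup (RingAut O)) : Prop :=
  ∃ (δ : RingAut O) (σ : PI O), δ ≠ 1 ∧
    (∀ x, ext O δ (σ.s (ext O δ (σ.s x))) = σ.s (ext O δ (σ.s (ext O δ x)))) ∧
    ∀ g ∈ V, g * δ = δ * g

/-- Third family: the elements of `V` preserve a nilpotent subring `W ≠ 0`. -/
def SmW (V : Subgroup (RingAut O)) : Prop :=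
  ∃ W : Submodule ℤ O, W ≠ ⊥ ∧ (∀ x ∈ W, ∀ y ∈ W, x * y ∈ W) ∧ (∃ k : ℕ, W ^ k = ⊥) ∧
    ∀ g ∈ V, ∀ x ∈ W, g x ∈ W

/-- All three families. -/
def SmO (V : Subgroup (RingAut O)) : Prop := Finite V ∨ SmD V ∨ SmW V

end Ord

section Statements

/-- The maps `σ ∘ ln σ τ t` form a one-parameter group. -/
def OneP {O : Type} [Ring O] [MetricSpace (PI O)] (Γ : Geo (RingAut O) (PI O)) : Prop :=
  ∀ (σ τ : PI O) (s t : ℝ) (x : VO O),
    σ.s ((Γ.ln σ τ (s + t)).s x) = σ.s ((Γ.ln σ τ s).s (σ.s ((Γ.ln σ τ t).s x)))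

/-- Part X: the space of the positive involutions. -/
def S_X : Prop :=
  ∀ (O : Type) [Ring O] [Module.Free ℤ O] [Module.Finite ℤ O], Nonempty (PI O) →
    ∃ _ : MetricSpace (PI O), IsTh O ∧ ∃ Γ : Geo (RingAut O) (PI O), OneP Γ

/-- Part N: the periodic families. Proof. `δ' = δ ^ E` with `E = #(RingAut (O / 3 O))` (or any
`E > 0` with `δ ^ E = 1` modulo `3`); it is normal for `σ = c(0)`. Roots of unity which are quotients
of eigenvalues of automorphisms `= 1` modulo `3` are `1`; so `h = g δ' g⁻¹` and `δ'`, which have a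
common power, are equal. -/
def S_N : Prop :=
  ∀ (O : Type) [Ring O] [Module.Free ℤ O] [Module.Finite ℤ O] [MetricSpace (PI O)], IsTh O →
    ∀ Γ : Geo (RingAut O) (PI O), OneP Γ → ∀ V, SmP Γ V → SmD V

/-- Part R: infinity. -/
def S_R : Prop :=
  ∀ (O : Type) [Ring O] [Module.Free ℤ O] [Module.Finite ℤ O] [MetricSpace (PI O)], IsTh O →
    ∀ ε : ℝ, 0 < ε → ∃ U : Fam (RingAut O) (PI O) (fun g x => g • x) SmW (Module.finrank ℤ O),
      U.Lip ε ∧ ∃ Z : Set (PI O), CoCpt (RingAut O) Z ∧ ∀ x, x ∉ Z → ∃ j, U.u j x = 1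

/-- The geometric result for all orders (from X, N, F, F0, R, E). -/
def S_G : Prop :=
  ∀ (O : Type) [Ring O] [Module.Free ℤ O] [Module.Finite ℤ O], Nonempty (PI O) →
    ∀ (H : Type) [Group H] (ρ : H →* RingAut O),
      (∀ V : Subgroup H, SmO (V.map ρ) → KK V) → KK H

/-- Part SS. -/
def S_SS : Prop :=
  ∀ (n : ℕ) (H : Type) [Group H] (θ : H →* Matrix.GeneralLinearGroup (Fin n) ℤ),
    (∀ U : Subgroup H, Finite (U.map θ) → SS U) → SS H

/-- Part I, the induction. -/
def S_O : Prop :=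
  ∀ (O : Type) [Ring O] [Module.Free ℤ O] [Module.Finite ℤ O], Nonempty (PI O) →
    ∀ (H : Type) [Group H] (ρ : H →* RingAut O),
      (∀ U : Subgroup H, Finite (U.map ρ) → KS U) → KS H

/-- The final result. -/
def S_ZERO : Prop :=
  ∀ (n : ℕ) (H : Type) [Group H] (θ : H →* Matrix.GeneralLinearGroup (Fin n) ℤ),
    (∀ U : Subgroup H, Finite (U.map θ) → KS U) → KS H

/-- Part I. -/
def S_I : Prop := S_G → S_SS → S_O ∧ (S_O → S_ZERO)

end Statements

end Pool.Agent.ZA
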