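import Mathlib
import Pool.Agent.Lib.MP_8f66f0_al_ZA.Ord

/-! Project ZERO, assembly of the geometric part: `S_X`, `S_N`, `S_R`, `S_F`, `S_F0`, `S_E` imply
`S_G`. -/

set_option autoImplicit false

namespace Pool.Agent.ZA

open Pool.Agent.Wald Pool.Agent.WaldL Pool.Agent.Ind Pool.Agent.FH
open scoped Pointwise

section Fam

variable {G M M' : Type} [Group G] {a : G → M → M} {a' : G → M' → M'}
  {Sm Sm' : Subgroup G → Prop} {n n' : ℕ}

attribute [instance] Fam.act

/-- Weaker conditions. -/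
def Fam.mono (U : Fam G M a Sm n) (h : ∀ V, Sm V → Sm' V) (hn : n ≤ n') : Fam G M a Sm' n' where
  J := U.J
  u := U.u
  nonneg := U.nonneg
  le_one := U.le_one
  inv := U.inv
  fin := U.fin
  card x := (U.card x).trans hn
  small x A hA h1 V hV := h V (U.small x A hA h1 V hV)

/-- The pull-back along an equivariant map. -/
def Fam.pull (U : Fam G M a Sm n) (f : M' → M) (hf : ∀ g x, f (a' g x) = a g (f x)) :
    Fam G M' a' Sm n where
  J := U.J
  u j x := U.u j (f x)
  nonneg j x := U.nonneg j (f x)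
  le_one j x := U.le_one j (f x)
  inv g j x := by rw [hf, U.inv]
  fin x := U.fin (f x)
  card x := U.card (f x)
  small x A hA h1 V hV := U.small (f x) A hA h1 V hV

/-- The disjoint union of two families. -/
def Fam.sum (U : Fam G M a Sm n) (U' : Fam G M a Sm' n') :
    Fam G M a (fun V => Sm V ∨ Sm' V) (n + n') where
  J := U.J ⊕ U'.J
  u := Sum.elim U.u U'.u
  nonneg j x := by
    rcases j with j | j
    · exact U.nonneg j x
    · exact U'.nonneg j x
  le_one j x := by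
    rcases j with j | j
    · exact U.le_one j x
    · exact U'.le_one j x
  inv g j x := by
    rcases j with j | j
    · exact U.inv g j x
    · exact U'.inv g j x
  fin x := by
    refine (((U.fin x).image Sum.inl).union ((U'.fin x).image Sum.inr)).subset ?_
    rintro (j | j) hj
    · exact Or.inl ⟨j, hj, rfl⟩
    · exact Or.inr ⟨j, hj, rfl⟩
  card x := by
    have h : {j | Sum.elim U.u U'.u j x ≠ 0} ⊆
        Sum.inl '' {j | U.u j x ≠ 0} ∪ Sum.inr '' {j | U'.u j x ≠ 0} := by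
      rintro (j | j) hj
      · exact Or.inl ⟨j, hj, rfl⟩
      · exact Or.inr ⟨j, hj, rfl⟩
    refine (Set.ncard_le_ncard h (((U.fin x).image _).union ((U'.fin x).image _))).trans ?_
    refine (Set.ncard_union_le _ _).trans ?_
    rw [Set.ncard_image_of_injective _ Sum.inl_injective,
      Set.ncard_image_of_injective _ Sum.inr_injective]
    exact Nat.add_le_add (U.card x) (U'.card x)
  small x A hA h1 V hV := by
    obtain ⟨j, hj⟩ := hA
    rcases j with j | j
    · refine Or.inl (U.small x (Sum.inl ⁻¹' A) ⟨j, hj⟩ (fun i hi => h1 (Sum.inl i) hi) V ?_)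
      intro g hg
      ext i
      rw [Set.mem_smul_set_iff_inv_smul_mem, Set.mem_preimage, Set.mem_preimage]
      conv_rhs => rw [← hV g hg, Set.mem_smul_set_iff_inv_smul_mem]
      exact Iff.rfl
    · refine Or.inr (U'.small x (Sum.inr ⁻¹' A) ⟨j, hj⟩ (fun i hi => h1 (Sum.inr i) hi) V ?_)
      intro g hg
      ext i
      rw [Set.mem_smul_set_iff_inv_smul_mem, Set.mem_preimage, Set.mem_preimage]
      conv_rhs => rw [← hV g hg, Set.mem_smul_set_iff_inv_smul_mem]
      exact Iff.rfl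

theorem Fam.uc_of_lip [MetricSpace M] {U : Fam G M a Sm n} {ε : ℝ} (hε : 0 ≤ ε) (h : U.Lip ε) :
    U.UC := by
  intro η hη
  refine ⟨η / (ε + 1), by positivity, fun x y hxy j => (h x y j).trans ?_⟩
  calc ε * dist x y ≤ ε * (η / (ε + 1)) := by gcongr
    _ = η * (ε / (ε + 1)) := by ring
    _ ≤ η * 1 := by
      gcongr
      rw [div_le_one (by positivity)]
      linarith
    _ = η := mul_one η

theorem Fam.uc_sum [MetricSpace M] {U : Fam G M a Sm n} {U' : Fam G M a Sm' n'} (h : U.UC)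
    (h' : U'.UC) : (U.sum U').UC := by
  intro ε hε
  obtain ⟨δ, hδ, h1⟩ := h ε hε
  obtain ⟨δ', hδ', h2⟩ := h' ε hε
  refine ⟨min δ δ', lt_min hδ hδ', fun x y hxy j => ?_⟩
  rcases j with j | j
  · exact h1 x y (hxy.trans (min_le_left _ _)) j
  · exact h2 x y (hxy.trans (min_le_right _ _)) j

end Fam

theorem asm (hX : S_X) (hN : S_N) (hR : S_R) (hF : S_F) (hF0 : S_F0) (hE : S_E) : S_G := by
  intro O _ _ _ hO H _ ρ hρ
  obtain ⟨m, hm, Γ, hΓ⟩ := hX O hO
  obtain ⟨U₁, hU₁, Z₁, hZ₁, hc₁⟩ := hR O hm 1 one_pos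
  obtain ⟨n₀, U₀, hU₀, hc₀⟩ := hF0 (RingAut O) (PI O) Γ Z₁ hZ₁
  obtain ⟨n₂, hF⟩ := hF (RingAut O) (PI O) Γ
  refine hE (RingAut O) (PI O) Γ SmO (Module.finrank ℤ O + max n₀ n₂) ?_ ?_ H ρ hρ
  · refine ⟨(U₁.sum U₀).mono ?_ (Nat.add_le_add_left (le_max_left _ _) _), ?_, ?_⟩
    · rintro V (h | h)
      · exact Or.inr (Or.inr h)
      · exact Or.inl h
    · exact Fam.uc_sum (Fam.uc_of_lip zero_le_one hU₁) hU₀
    · intro x
      by_cases hx : x ∈ Z₁
      · obtain ⟨j, hj⟩ := hc₀ x hx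
        exact ⟨Sum.inr j, hj⟩
      · obtain ⟨j, hj⟩ := hc₁ x hx
        exact ⟨Sum.inl j, hj⟩
  · intro α hα
    obtain ⟨U, hU, Z, hZ, hc⟩ := hR O hm (1 / α) (by positivity)
    obtain ⟨U', hU', hs, hc'⟩ := hF Z hZ α hα
    refine ⟨((U.pull (a' := Γ.gs) (fun c : SY (PI O) => c.1.1) (fun _ _ => rfl)).sum U').mono ?_
      (Nat.add_le_add_left (le_max_right _ _) _), ?_, ?_, ?_⟩
    · rintro V (h | h | h)
      · exact Or.inr (Or.inr h)
      · exact Or.inl h
      · exact Or.inr (Or.inl (hN O hm Γ hΓ V h))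
    · refine Fam.uc_sum ?_ hU'
      intro ε hε
      obtain ⟨δ, hδ, h1⟩ := Fam.uc_of_lip (by positivity) hU ε hε
      refine ⟨δ, hδ, fun x y hxy j => h1 x.1.1 y.1.1 (le_trans ?_ hxy) j⟩
      exact le_max_left (dist x.1.1 y.1.1) (dist x.1.2 y.1.2)
    · intro j c t
      rcases j with j | j
      · refine (hU _ _ j).trans (le_of_eq ?_)
        have h1 := Γ.dln c.1.1 c.1.2 t 0
        rw [Γ.ln0, c.2, sub_zero, mul_one] at h1
        change 1 / α * dist (Γ.ln c.1.1 c.1.2 t) c.1.1 = |t| / α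
        rw [h1]
        ring
      · exact hs j c t
    · intro c
      by_cases hx : c.1.1 ∈ Z
      · obtain ⟨j, hj⟩ := hc' c hx
        exact ⟨Sum.inr j, hj⟩
      · obtain ⟨j, hj⟩ := hc c.1.1 hx
        exact ⟨Sum.inl j, hj⟩

end Pool.Agent.ZA
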