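import Mathlib
import Pool.Agent.Lib.MP_8f66f0_al_ZA.Defs

/-! Project ZERO, part F0: the static families on the cocompact part. -/

set_option autoImplicit false

namespace Pool.Agent.ZA

open scoped Pointwise

section F0

variable {G Y : Type} [Group G] [MetricSpace Y] [MulAction G Y]

/-- Stabilizers of points are finite. -/
theorem Geo.stab_fin (Γ : Geo G Y) (a : Y) : {g : G | g • a = a}.Finite := by
  refine (Γ.act {a} isCompact_singleton).subset ?_
  intro g hg
  exact ⟨a, ⟨a, rfl, hg⟩, rfl⟩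

/-- Orbits are discrete. -/
theorem Geo.exists_eta (Γ : Geo G Y) (z : Y) :
    ∃ η : ℝ, 0 < η ∧ ∀ g : G, dist (g • z) z < 4 * η → g • z = z := by
  classical
  have hf : {g : G | dist (g • z) z ≤ 1}.Finite := by
    refine (Γ.act _ (Γ.cpt z 1)).subset ?_
    intro g hg
    refine ⟨g • z, ⟨z, ?_, rfl⟩, hg⟩
    simp
  have hf2 : ((fun g : G => dist (g • z) z) '' {g : G | dist (g • z) z ≤ 1 ∧ g • z ≠ z}).Finite :=
    (hf.subset fun g hg => hg.1).image _
  have key : ∀ s : Set ℝ, s.Finite → (∀ r ∈ s, 0 < r) → ∃ η : ℝ, 0 < η ∧ ∀ r ∈ s, 4 * η ≤ r := by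
    intro s hs
    induction s, hs using Set.Finite.induction_on with
    | empty => exact fun _ => ⟨1, one_pos, fun r hr => absurd hr (Set.notMem_empty r)⟩
    | @insert a s _ _ ih =>
      intro h
      obtain ⟨η, hη, h1⟩ := ih fun r hr => h r (Set.mem_insert_of_mem _ hr)
      have ha := h a (Set.mem_insert _ _)
      refine ⟨min η (a / 4), lt_min hη (by positivity), ?_⟩
      rintro r (rfl | hr)
      · have := min_le_right η (r / 4)
        linarith
      · have := min_le_left η (a / 4)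
        have := h1 r hr
        linarith
  obtain ⟨η, hη, h1⟩ := key _ hf2 (by
    rintro r ⟨g, hg, rfl⟩
    exact dist_pos.2 hg.2)
  refine ⟨min η (1 / 4), lt_min hη (by norm_num), fun g hg => ?_⟩
  by_contra hne
  have h2 := min_le_left η (1 / 4)
  have h3 := min_le_right η (1 / 4)
  have h4 := h1 _ ⟨g, ⟨by linarith, hne⟩, rfl⟩
  simp only at h4
  linarith

/-- The bump function. -/
noncomputable def bump (η r : ℝ) : ℝ := max 0 (min 1 (2 - r / η))

theorem bump_lip {η : ℝ} (hη : 0 < η) (r s : ℝ) : |bump η r - bump η s| ≤ |r - s| / η := by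
  unfold bump
  refine (abs_max_sub_max_le_max _ _ _ _).trans ?_
  rw [sub_self, abs_zero]
  refine max_le (by positivity) ((abs_min_sub_min_le_max _ _ _ _).trans ?_)
  rw [sub_self, abs_zero]
  refine max_le (by positivity) (le_of_eq ?_)
  rw [show 2 - r / η - (2 - s / η) = -((r - s) / η) by ring, abs_neg, abs_div, abs_of_pos hη]

theorem bump_one {η : ℝ} (hη : 0 < η) {r : ℝ} (h : r ≤ η) : bump η r = 1 := by
  unfold bump
  have : r / η ≤ 1 := by rwa [div_le_one hη]
  rw [min_eq_left (by linarith), max_eq_right zero_le_one]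

theorem bump_ne {η : ℝ} (hη : 0 < η) {r : ℝ} (h : bump η r ≠ 0) : r < 2 * η := by
  by_contra h1
  apply h
  unfold bump
  have : 2 ≤ r / η := by
    rw [le_div_iff₀ hη]
    linarith
  exact max_eq_left ((min_le_right _ _).trans (by linarith))

/-- The index set. -/
def JF (G : Type) {Y : Type} [Group G] [MulAction G Y] {m : ℕ} (z : Fin m → Y) : Type :=
  {p : Fin m × Y // ∃ g : G, g • z p.1 = p.2}

instance {m : ℕ} (z : Fin m → Y) : MulAction G (JF G z) where
  smul g j := ⟨(j.1.1, g • j.1.2), by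
    obtain ⟨h, hh⟩ := j.2
    exact ⟨g * h, by rw [mul_smul, hh]⟩⟩
  one_smul j := by
    apply Subtype.ext
    exact Prod.ext rfl (one_smul G j.1.2)
  mul_smul g h j := by
    apply Subtype.ext
    exact Prod.ext rfl (mul_smul g h j.1.2)

theorem JF_eq (Γ : Geo G Y) {m : ℕ} {z : Fin m → Y} {η : Fin m → ℝ}
    (h1 : ∀ (i : Fin m) (g : G), dist (g • z i) (z i) < 4 * η i → g • z i = z i)
    (j j' : JF G z) (hi : j.1.1 = j'.1.1) (x : Y) (hj : dist x j.1.2 < 2 * η j.1.1)
    (hj' : dist x j'.1.2 < 2 * η j'.1.1) : j = j' := by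
  obtain ⟨⟨i, a⟩, g, hg⟩ := j
  obtain ⟨⟨i', a'⟩, g', hg'⟩ := j'
  simp only at hi hj hj' hg hg'
  subst hi
  subst hg
  subst hg'
  have h2 : dist ((g'⁻¹ * g) • z i) (z i) < 4 * η i := by
    rw [← Γ.gdist g', ← mul_smul, mul_inv_cancel_left]
    have := dist_triangle_left (g • z i) (g' • z i) x
    linarith
  have h3 := h1 i _ h2
  apply Subtype.ext
  refine Prod.ext rfl ?_
  change g • z i = g' • z i
  rw [← mul_inv_cancel_left g' g, mul_smul, h3]

theorem f0 : S_F0 := by
  intro G Y _ _ _ Γ Z hZ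
  obtain ⟨-, -, K, hK, hKZ⟩ := hZ
  choose η hη h1 using Γ.exists_eta
  obtain ⟨t, -, ht⟩ := hK.elim_nhds_subcover (fun z => Metric.ball z (η z))
    fun z _ => Metric.ball_mem_nhds z (hη z)
  set m := t.card with hm
  set z : Fin m → Y := fun i => (t.equivFin.symm i : Y) with hz
  have hpos : ∀ i, 0 < η (z i) := fun i => hη _
  have hcov : ∀ x ∈ K, ∃ i : Fin m, dist x (z i) < η (z i) := by
    intro x hx
    obtain ⟨y, hy, hxy⟩ := Set.mem_iUnion₂.1 (ht hx)
    refine ⟨t.equivFin ⟨y, hy⟩, ?_⟩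
    simpa [hz] using hxy
  have hne : ∀ (j : JF G z) (x : Y), bump (η (z j.1.1)) (dist x j.1.2) ≠ 0 →
      dist x j.1.2 < 2 * η (z j.1.1) := fun j x h => bump_ne (hpos _) h
  have hinj : ∀ x : Y, Set.InjOn (fun j : JF G z => j.1.1)
      {j | bump (η (z j.1.1)) (dist x j.1.2) ≠ 0} := by
    intro x j hj j' hj' h
    exact JF_eq Γ (η := fun i => η (z i)) (fun i g => h1 (z i) g) j j' h x (hne j x hj)
      (hne j' x hj')
  have hfin : ∀ x : Y, {j : JF G z | bump (η (z j.1.1)) (dist x j.1.2) ≠ 0}.Finite := by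
    intro x
    exact Set.Finite.of_finite_image (Set.toFinite _) (hinj x)
  refine ⟨m, ⟨JF G z, fun j x => bump (η (z j.1.1)) (dist x j.1.2), ?_, ?_, ?_, hfin, ?_, ?_⟩,
    ?_, ?_⟩
  · exact fun j x => le_max_left _ _
  · exact fun j x => max_le zero_le_one (min_le_left _ _)
  · intro g j x
    change bump (η (z j.1.1)) (dist (g • x) (g • j.1.2)) = _
    rw [Γ.gdist]
  · intro x
    rw [← (hinj x).ncard_image]
    refine (Set.ncard_le_card _).trans ?_
    simp
  · intro x A hA h2 V hV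
    obtain ⟨j, hj⟩ := hA
    have h3 : (V : Set G) ⊆ {g : G | g • j.1.2 = j.1.2} := by
      intro g hg
      have h4 : g • j ∈ A := by
        rw [← hV g hg]
        exact Set.smul_mem_smul_set hj
      have h5 := hinj x (h2 _ h4) (h2 _ hj) rfl
      exact congrArg (fun j : JF G z => j.1.2) h5
    exact ((Γ.stab_fin j.1.2).subset h3).to_subtype
  · intro ε hε
    obtain ⟨c, hc, hc1⟩ : ∃ c : ℝ, 0 < c ∧ ∀ i : Fin m, c ≤ η (z i) := by
      rcases isEmpty_or_nonempty (Fin m) with h | h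
      · exact ⟨1, one_pos, fun i => (h.false i).elim⟩
      · obtain ⟨i₀, hi₀⟩ := Finite.exists_min (fun i : Fin m => η (z i))
        exact ⟨η (z i₀), hpos i₀, hi₀⟩
    refine ⟨ε * c, by positivity, fun x y hxy j => (bump_lip (hpos _) _ _).trans ?_⟩
    have h2 := abs_dist_sub_le x y j.1.2
    calc |dist x j.1.2 - dist y j.1.2| / η (z j.1.1) ≤ dist x y / c := by
          gcongr
          exact hc1 _
      _ ≤ ε := by
        rw [div_le_iff₀ hc]
        exact hxy
  · intro x hx
    obtain ⟨g, hg⟩ := hKZ x hx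
    obtain ⟨i, hi⟩ := hcov _ hg
    refine ⟨⟨(i, g⁻¹ • z i), g⁻¹, rfl⟩, ?_⟩
    apply bump_one (hpos _)
    change dist x (g⁻¹ • z i) ≤ η (z i)
    rw [← Γ.gdist g, smul_inv_smul]
    exact hi.le

end F0

end Pool.Agent.ZA
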