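import Mathlib
import Pool.Agent.Lib.MP_8f66f0_al_ZA.Asm
import Pool.Agent.Lib.MP_8f66f0_al_ZA.F0
import Pool.Agent.Lib.MP_8f66f0_al_ZX.Main
import Pool.Agent.Lib.MP_8f66f0_al_ZN.Main
import Pool.Agent.Lib.MP_8f66f0_al_ZF.FAll
import Pool.Agent.Lib.MP_8f66f0_al_ZE.Fin
import Pool.Agent.Lib.MP_8f66f0_al_ZT1.All

/-! Project ZERO: the geometric theorem `S_G` (all parts X, N, R, F, F0, E, T1, T2). -/

set_option autoImplicit false

namespace Pool.Agent.ZA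

/-- The geometric theorem. -/
theorem sG : S_G := asm ZX.tX ZN.tN ZN.sR ZF.sF f0 (ZE.tSE ZT1.t1)

end Pool.Agent.ZA
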