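import Mathlib
import Pool.Agent.Lib.MP_8f66f0_al_ZA.AllG
import Pool.Agent.Lib.MP_8f66f0_al_ZI.IMain
import Pool.Agent.Lib.MP_8f66f0_al_ZSS.ForZA

/-! Project ZERO: the final theorem `S_ZERO`. -/

set_option autoImplicit false

namespace Pool.Agent.ZA

/-- Representations in `GL_n(ℤ)`: if all preimages of finite groups are in `KS` then the group is
in `KS`. -/
theorem s_zero : S_ZERO := (ZI.tI sG ZSS.za_SS).2 (ZI.tI sG ZSS.za_SS).1

end Pool.Agent.ZA
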